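import Pool.Agent.helper77.BND.SpecF

/-!
# Row bnd:FDN (MP_376aaf_an)

Adding a free group so that the image is dense in the affine functions.
-/

set_option autoImplicit false

open scoped Topology Matrix
open Filter Finset

namespace Pool.Agent.BND

open Pool.Agent.CZ Pool.Agent.PV Pool.Agent.PVH

/-- the affine functions as a subgroup -/
def FDN_sub {E : Type} [AddCommGroup E] [Module ℝ E] [TopologicalSpace E] (K : Set E) : AddSubgroup C(K, ℝ) where
  carrier := {a | IsAff a}
  zero_mem' := ⟨fun x y z s t _ _ _ _ => by simp⟩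
  add_mem' := by
    intro a b ha hb
    refine ⟨fun x y z s t hs ht hst hz => ?_⟩
    rw [ContinuousMap.add_apply, ContinuousMap.add_apply, ContinuousMap.add_apply, ha.aff x y z s t hs ht hst hz,
      hb.aff x y z s t hs ht hst hz]
    ring
  neg_mem' := by
    intro a ha
    refine ⟨fun x y z s t hs ht hst hz => ?_⟩
    rw [ContinuousMap.neg_apply, ContinuousMap.neg_apply, ContinuousMap.neg_apply, ha.aff x y z s t hs ht hst hz]
    ring

theorem FDN : FDN_stmt := by
  intro E _ _ _ K _ hK hcv hne H _ _ ρ g haff hone htf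
  haveI : CompactSpace K := isCompact_iff_compactSpace.1 hK
  letI := TopologicalSpace.metrizableSpaceMetric K
  haveI : SecondCountableTopology C(K, ℝ) := inferInstance
  haveI : Nonempty (FDN_sub K) := ⟨0⟩
  obtain ⟨a, ha⟩ := TopologicalSpace.exists_dense_seq (FDN_sub K)
  set L : (ℕ →₀ ℤ) →+ C(K, ℝ) := Finsupp.liftAddHom (fun n => (zmultiplesHom C(K, ℝ)) (a n : C(K, ℝ))) with hL
  have hL1 : ∀ n, L (Finsupp.single n 1) = (a n : C(K, ℝ)) := by
    intro n
    rw [hL]
    simp
  have hL2 : ∀ f, L f ∈ FDN_sub K := by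
    intro f
    rw [hL, Finsupp.liftAddHom_apply]
    refine AddSubgroup.sum_mem _ fun n _ => ?_
    show (zmultiplesHom C(K, ℝ)) (a n : C(K, ℝ)) (f n) ∈ FDN_sub K
    rw [zmultiplesHom_apply]
    exact AddSubgroup.zsmul_mem _ (a n).2 _
  refine ⟨H × (ℕ →₀ ℤ), inferInstance, inferInstance, AddMonoidHom.coprod ρ L, AddMonoidHom.inl H (ℕ →₀ ℤ),
    ⟨hK, hcv, hne, ?_, ?_, ?_⟩, ?_, ?_, ?_, ?_⟩
  · rintro ⟨x, f⟩
    rw [AddMonoidHom.coprod_apply]
    exact (FDN_sub K).add_mem (haff x) (hL2 f)
  · intro b hb ε hε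
    obtain ⟨n, hn⟩ := ha.exists_dist_lt (⟨b, hb⟩ : FDN_sub K) hε
    refine ⟨(0, Finsupp.single n 1), fun t => ?_⟩
    rw [AddMonoidHom.coprod_apply, map_zero, zero_add, hL1]
    have h1 : dist b (a n : C(K, ℝ)) < ε := hn
    have h2 := ContinuousMap.dist_apply_le_dist (f := b) (g := (a n : C(K, ℝ))) t
    rw [Real.dist_eq, abs_sub_comm] at h2
    linarith
  · simp [hone]
  · intro x y hxy
    exact (Prod.mk.inj hxy).1
  · intro x
    simp
  · rintro n ⟨x, f⟩ hn ⟨z, hz⟩
    have h2 : n • f = 0 := by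
      have := congrArg Prod.snd hz
      simpa using this.symm
    have hf : f = 0 := by
      ext i
      have := DFunLike.congr_fun h2 i
      rw [Finsupp.smul_apply, Finsupp.coe_zero, Pi.zero_apply] at this
      rw [Finsupp.coe_zero, Pi.zero_apply]
      rcases smul_eq_zero.1 this with h | h
      · omega
      · exact h
    exact ⟨x, by rw [hf]; rfl⟩
  · rintro n ⟨x, f⟩ hn hz
    have h1 : n • x = 0 := congrArg Prod.fst hz
    have h2 : n • f = 0 := congrArg Prod.snd hz
    have hx := htf n x hn h1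
    have hf : f = 0 := by
      ext i
      have := DFunLike.congr_fun h2 i
      rw [Finsupp.smul_apply, Finsupp.coe_zero, Pi.zero_apply] at this
      rw [Finsupp.coe_zero, Pi.zero_apply]
      rcases smul_eq_zero.1 this with h | h
      · omega
      · exact h
    rw [hx, hf]
    rfl

end Pool.Agent.BND
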