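import Pool.Agent.helper53.BND.SpecL

/-!
# Row bnd:LR0 (MP_376aaf_an)

The rank is injective on `K₀(C(X))` for the space of a band system.
-/

set_option autoImplicit false

open scoped Topology Matrix
open Filter Finset

namespace Pool.Agent.BND

open Pool.Agent.CZ Pool.Agent.PV

theorem LR0_lower (B : BS) {k k' : ℕ} (h : k ≤ k') (x y : ↥(XS B)) (hxy : x.1 k' = y.1 k') : x.1 k = y.1 k := by
  induction k', h using Nat.le_induction with
  | base => exact hxy
  | succ j hj ih =>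
    refine ih ?_
    obtain ⟨e, s, i, he, hs, hi, hx⟩ := (x.2 (j + 1)).1
    rw [(x.2 j).2 e s i he hs hi hx, (y.2 j).2 e s i he hs hi (hxy ▸ hx)]

/-- the functions of the `k`-th coordinate -/
noncomputable def LR0_S (B : BS) (k : ℕ) : Subalgebra ℂ C(↥(XS B), ℂ) where
  carrier := {f | ∀ x y : ↥(XS B), x.1 k = y.1 k → f x = f y}
  mul_mem' := by
    intro f g hf hg x y h
    rw [ContinuousMap.mul_apply, ContinuousMap.mul_apply, hf x y h, hg x y h]
  add_mem' := by
    intro f g hf hg x y h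
    rw [ContinuousMap.add_apply, ContinuousMap.add_apply, hf x y h, hg x y h]
  algebraMap_mem' := by
    intro r x y _
    rfl

/-- evaluation at a point -/
noncomputable def LR0_ev (B : BS) (t : ↥(XS B)) : C(↥(XS B), ℂ) →+* ℂ where
  toFun f := f t
  map_one' := rfl
  map_mul' _ _ := rfl
  map_zero' := rfl
  map_add' _ _ := rfl

theorem LR0_unit {A A' : Type} [Ring A] [Ring A'] (φ : A →+* A') : k0map φ (unitCls A) = unitCls A' := by
  have h : imap φ ⟨1, 1, one_mul 1⟩ = ⟨1, 1, one_mul 1⟩ := by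
    unfold imap
    congr 1
    exact map_one φ.mapMatrix
  show cls (imap φ ⟨1, 1, one_mul 1⟩) = cls ⟨1, 1, one_mul 1⟩
  rw [h]

theorem LR0 (hLFP : LFP_stmt) (hBLF : BLF_stmt) (hXSU : XSU_stmt) (hEMC : EMC_stmt) (hCS0 : CS0_stmt)
    (hK0G : K0G_stmt) (hK0E : K0E_stmt) (hK0B : K0B_stmt) : LR0_stmt := by
  intro B M _ hB R hR z hz
  set S : Finset ℕ → Subalgebra ℂ C(↥(XS B), ℂ) := fun F => LR0_S B (F.sup id) with hS
  have hmono : Monotone S := by
    intro F F' hFF f hf x y hxy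
    exact hf x y (LR0_lower B (Finset.sup_mono hFF) x y hxy)
  have hclosed : ∀ F, IsClosed (S F : Set C(↥(XS B), ℂ)) := by
    intro F
    have h : (S F : Set C(↥(XS B), ℂ)) = ⋂ (x : ↥(XS B)) (y : ↥(XS B)) (_ : x.1 (F.sup id) = y.1 (F.sup id)),
        {f : C(↥(XS B), ℂ) | f x = f y} := by
      ext f
      simp only [Set.mem_iInter, Set.mem_ofPred_eq]
      rfl
    rw [h]
    exact isClosed_iInter fun x => isClosed_iInter fun y => isClosed_iInter fun _ =>
      isClosed_eq (continuous_eval_const x) (continuous_eval_const y)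
  have hcoord : ∀ m : ℕ, Continuous fun x : ↥(XS B) => x.1 m := fun m => (continuous_apply m).comp continuous_subtype_val
  have hdense : Dense {a : C(↥(XS B), ℂ) | ∃ F, a ∈ S F} := by
    intro f
    rw [Metric.mem_closure_iff]
    intro ε hε
    obtain ⟨m, hm⟩ := hBLF B M hB f (ε / 2) (half_pos hε)
    obtain ⟨F, hFc, hF⟩ := hm m le_rfl
    have hc : Continuous fun x : ↥(XS B) => F (x.1 m) := hFc.comp_continuous (hcoord m) (fun x => (x.2 m).1)
    refine ⟨⟨_, hc⟩, ⟨{m}, ?_⟩, ?_⟩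
    · intro x y hxy
      have h1 : ({m} : Finset ℕ).sup id = m := Finset.sup_singleton
      rw [h1] at hxy
      show F (x.1 m) = F (y.1 m)
      rw [hxy]
    · refine lt_of_le_of_lt ((ContinuousMap.dist_le (half_pos hε).le).2 fun x => ?_) (half_lt_self hε)
      rw [dist_eq_norm]
      exact hF x
  obtain ⟨F, w, hw⟩ := hCS0 C(↥(XS B), ℂ) ℕ S hmono hclosed hdense z
  obtain ⟨n, m, e, he, hwe⟩ := hK0G (S F) w
  set k := F.sup id with hk
  have hSk : ∀ f : S F, ∀ x y : ↥(XS B), x.1 k = y.1 k → (f : C(↥(XS B), ℂ)) x = (f : C(↥(XS B), ℂ)) y :=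
    fun f => f.2
  set E1 : Matrix (Fin n) (Fin n) C(↥(XS B), ℂ) := e.map (S F).val.toRingHom with hE1
  have he' : E1 * E1 = E1 := by
    rw [hE1, ← Matrix.map_mul, he]
  have h1 : (1 : Matrix (Fin m) (Fin m) C(↥(XS B), ℂ)) * 1 = 1 := one_mul 1
  have hz1 : z = k0 E1 he' - k0 1 h1 := by
    have h2 := hK0B.2.2 C(↥(XS B), ℂ) (Fin m) h1
    rw [Fintype.card_fin] at h2
    rw [hw, hwe, map_sub, map_nsmul, LR0_unit, h2]
    rfl
  have hR1 : ∀ x, ∑ i, E1 i i x = m := by
    intro x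
    have h2 : R (k0 E1 he') = R (k0 1 h1) := by
      rw [hz1, map_sub] at hz
      exact sub_eq_zero.1 hz
    rw [← hR (Fin n) E1 he' x, h2, hR (Fin m) 1 h1 x]
    simp
  set E : Am → Matrix (Fin n) (Fin n) ℂ := fun y => by
    classical
    exact if h : y ∈ FS (B.L k) then Matrix.of fun a b => E1 a b (Classical.choose (hXSU B M hB k y h)) else 0 with hEdef
  have hE : ∀ x : ↥(XS B), E (x.1 k) = E1.map (LR0_ev B x) := by
    intro x
    rw [hEdef]
    simp only
    rw [dif_pos (x.2 k).1]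
    ext a b
    exact hSk (e a b) _ _ (Classical.choose_spec (hXSU B M hB k (x.1 k) (x.2 k).1))
  have hEc : ContinuousOn E (FS (B.L k)) := by
    rw [continuousOn_iff_continuous_domRestrict]
    set π : ↥(XS B) → ↥(FS (B.L k)) := fun x => ⟨x.1 k, (x.2 k).1⟩ with hπ
    have hπc : Continuous π := (hcoord k).subtype_mk _
    have hπs : Function.Surjective π := by
      rintro ⟨y, hy⟩
      obtain ⟨x, hx⟩ := hXSU B M hB k y hy
      exact ⟨x, Subtype.ext hx⟩
    have hq : Topology.IsQuotientMap π := hπc.isClosedMap.isQuotientMap hπc hπs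
    rw [hq.continuous_iff]
    refine continuous_matrix fun a b => ?_
    have h2 : (fun x : ↥(XS B) => E (x.1 k) a b) = fun x => E1 a b x := by
      funext x
      rw [hE]
      rfl
    show Continuous fun x : ↥(XS B) => E (x.1 k) a b
    rw [h2]
    exact (E1 a b).continuous
  have hprop : ∀ y ∈ FS (B.L k), E y * E y = E y ∧ (1 : Matrix (Fin m) (Fin m) ℂ) * 1 = 1 ∧
      (E y).trace = (1 : Matrix (Fin m) (Fin m) ℂ).trace := by
    intro y hy
    obtain ⟨x, rfl⟩ := hXSU B M hB k y hy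
    refine ⟨?_, one_mul 1, ?_⟩
    · rw [hE, ← Matrix.map_mul, he']
    · rw [hE, Matrix.trace_one, Fintype.card_fin]
      exact hR1 x
  obtain ⟨X, Y, hX, hY, hXY⟩ := hLFP (B.L k) (hB.lv k) (Fin n) (Fin m) E (fun _ => 1) hEc continuousOn_const hprop
  have hXc : Continuous fun t : ↥(XS B) => X (t.1 k) := hX.comp_continuous (hcoord k) (fun x => (x.2 k).1)
  have hYc : Continuous fun t : ↥(XS B) => Y (t.1 k) := hY.comp_continuous (hcoord k) (fun x => (x.2 k).1)
  set XX : Matrix (Fin n) (Fin m) C(↥(XS B), ℂ) := Matrix.of fun a b => ⟨fun t => X (t.1 k) a b, hXc.matrix_elem a b⟩ with hXX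
  set YY : Matrix (Fin m) (Fin n) C(↥(XS B), ℂ) := Matrix.of fun a b => ⟨fun t => Y (t.1 k) a b, hYc.matrix_elem a b⟩ with hYY
  have hXm : ∀ t, XX.map (LR0_ev B t) = X (t.1 k) := fun t => by ext a b; rfl
  have hYm : ∀ t, YY.map (LR0_ev B t) = Y (t.1 k) := fun t => by ext a b; rfl
  have hp1 : XX * YY = E1 := by
    refine Matrix.ext fun a b => ContinuousMap.ext fun t => ?_
    have h2 : (XX * YY).map (LR0_ev B t) = E1.map (LR0_ev B t) := by
      rw [Matrix.map_mul, hXm, hYm, ← hE, (hXY (t.1 k) (t.2 k).1).1]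
    exact congrFun (congrFun h2 a) b
  have hp2 : YY * XX = 1 := by
    refine Matrix.ext fun a b => ContinuousMap.ext fun t => ?_
    have h2 : (YY * XX).map (LR0_ev B t) = (1 : Matrix (Fin m) (Fin m) C(↥(XS B), ℂ)).map (LR0_ev B t) := by
      rw [Matrix.map_mul, hXm, hYm, (hXY (t.1 k) (t.2 k).1).2]
      exact (Matrix.map_one (LR0_ev B t) (map_zero _) (map_one _)).symm
    exact congrFun (congrFun h2 a) b
  rw [hz1, hK0E C(↥(XS B), ℂ) (Fin n) (Fin m) E1 1 he' h1 XX YY hp1 hp2, sub_self]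

end Pool.Agent.BND
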